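import Pool.Agent.W617.LG.StmI

/-! Laugwitz' problem: from the hypotheses of the frozen statement to `HD`.  The first part is a copy of
`H506R3.Lau.L1` (dimension three) in `ℝ^(q+2)`. -/

set_option autoImplicit false
set_option maxSynthPendingDepth 6
set_option linter.unusedVariables false
set_option linter.unusedSimpArgs false
open Topology Filter Set
open scoped ContDiff InnerProductSpace

namespace Pool.Agent.W369.LG.TR1

open Pool.Agent.W617.LG

variable {q : ℕ}

noncomputable def g (f : (E q) → ℝ) : (E q) → ((E q) →L[ℝ] (E q) →L[ℝ] ℝ) := fderiv ℝ (fderiv ℝ f)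
noncomputable def C (f : (E q) → ℝ) : (E q) → ((E q) →L[ℝ] (E q) →L[ℝ] (E q) →L[ℝ] ℝ) := fderiv ℝ (g f)

/-- smooth away from the origin, positively two-homogeneous, with positive definite Hessian -/
structure Dat (f : (E q) → ℝ) : Prop where
  smooth : ∀ x, x ≠ 0 → ContDiffAt ℝ ((⊤ : ℕ∞) : WithTop ℕ∞) f x
  hom : ∀ (t : ℝ) (x : (E q)), 0 < t → f (t • x) = t^2 * f x
  pos : ∀ x, x ≠ 0 → ∀ v, v ≠ 0 → 0 < g f x v v

variable {f : (E q) → ℝ}

lemma top_add_one : ((⊤ : ℕ∞) : WithTop ℕ∞) + 1 ≤ ((⊤ : ℕ∞) : WithTop ℕ∞) := by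
  exact le_refl _

lemma sm_dE (D : Dat f) {x : (E q)} (hx : x ≠ 0) : ContDiffAt ℝ ((⊤ : ℕ∞) : WithTop ℕ∞) (fderiv ℝ f) x :=
  (D.smooth x hx).fderiv_right top_add_one
lemma sm_g (D : Dat f) {x : (E q)} (hx : x ≠ 0) : ContDiffAt ℝ ((⊤ : ℕ∞) : WithTop ℕ∞) (g f) x :=
  (sm_dE D hx).fderiv_right top_add_one
lemma sm_C (D : Dat f) {x : (E q)} (hx : x ≠ 0) : ContDiffAt ℝ ((⊤ : ℕ∞) : WithTop ℕ∞) (C f) x :=
  (sm_g D hx).fderiv_right top_add_one

lemma top_ne_zero' : ((⊤ : ℕ∞) : WithTop ℕ∞) ≠ 0 := by simp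

lemma hd_dE (D : Dat f) {x : (E q)} (hx : x ≠ 0) : HasFDerivAt (fderiv ℝ f) (g f x) x :=
  ((sm_dE D hx).differentiableAt top_ne_zero').hasFDerivAt
lemma hd_E (D : Dat f) {x : (E q)} (hx : x ≠ 0) : HasFDerivAt f (fderiv ℝ f x) x :=
  ((D.smooth x hx).differentiableAt top_ne_zero').hasFDerivAt
lemma hd_g (D : Dat f) {x : (E q)} (hx : x ≠ 0) : HasFDerivAt (g f) (C f x) x :=
  ((sm_g D hx).differentiableAt top_ne_zero').hasFDerivAt

lemma symmAux {W : Type} [NormedAddCommGroup W] [NormedSpace ℝ W] {f : (E q) → W} {x : (E q)}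
    (hf : ContDiffAt ℝ ((⊤ : ℕ∞) : WithTop ℕ∞) f x) (u v : (E q)) :
    fderiv ℝ (fderiv ℝ f) x u v = fderiv ℝ (fderiv ℝ f) x v u := by
  have := hf.isSymmSndFDerivAt (by simp; exact WithTop.coe_le_coe.2 (le_top : (2:ℕ∞) ≤ ⊤))
  exact this u v

lemma g_symm (D : Dat f) {x : (E q)} (hx : x ≠ 0) (u v : (E q)) : g f x u v = g f x v u :=
  symmAux (D.smooth x hx) u v

lemma C_s12 (D : Dat f) {x : (E q)} (hx : x ≠ 0) (u v w : (E q)) : C f x u v w = C f x v u w := by
  have := symmAux (sm_dE D hx) u v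
  exact congrArg (fun L : (E q) →L[ℝ] ℝ => L w) this

lemma ne_ev {x : (E q)} (hx : x ≠ 0) : ∀ᶠ y in 𝓝 x, y ≠ (0:(E q)) := isOpen_ne.mem_nhds hx

lemma C_s23 (D : Dat f) {x : (E q)} (hx : x ≠ 0) (u v w : (E q)) : C f x u v w = C f x u w v := by
  have h1 : HasFDerivAt (fun y => g f y v w) _ x := ((hd_g D hx).clm_apply (hasFDerivAt_const v x)).clm_apply (hasFDerivAt_const w x)
  have h2 : HasFDerivAt (fun y => g f y w v) _ x := ((hd_g D hx).clm_apply (hasFDerivAt_const w x)).clm_apply (hasFDerivAt_const v x)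
  have h3 : (fun y => g f y v w) =ᶠ[𝓝 x] (fun y => g f y w v) := by
    filter_upwards [ne_ev hx] with y hy
    exact g_symm D hy v w
  have h4 := (h2.congr_of_eventuallyEq h3).unique h1
  have h5 := congrArg (fun L : (E q) →L[ℝ] ℝ => L u) h4
  simpa using h5.symm

lemma dE_hom (D : Dat f) {x : (E q)} (hx : x ≠ 0) {t : ℝ} (ht : 0 < t) : fderiv ℝ f (t • x) = t • fderiv ℝ f x := by
  have htx : t • x ≠ 0 := smul_ne_zero ht.ne' hx
  have h1 : HasFDerivAt (fun y : (E q) => f (t • y)) ((fderiv ℝ f (t • x)).comp (t • ContinuousLinearMap.id ℝ (E q))) x :=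
    (hd_E D htx).comp x ((hasFDerivAt_id x).const_smul t)
  have h2 : HasFDerivAt (fun y : (E q) => t^2 * f y) (t^2 • fderiv ℝ f x) x := (hd_E D hx).const_mul (t^2)
  have h3 : (fun y : (E q) => f (t • y)) = (fun y : (E q) => t^2 * f y) := by
    funext y; exact D.hom t y ht
  rw [h3] at h1
  have h4 := h1.unique h2
  ext v
  have h5 := congrArg (fun L : (E q) →L[ℝ] ℝ => L v) h4
  simp at h5 ⊢
  have : t * (fderiv ℝ f (t • x) v) = t * (t * fderiv ℝ f x v) := by rw [h5]; ring
  exact mul_left_cancel₀ ht.ne' this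

lemma g_hom (D : Dat f) {x : (E q)} (hx : x ≠ 0) {t : ℝ} (ht : 0 < t) : g f (t • x) = g f x := by
  have htx : t • x ≠ 0 := smul_ne_zero ht.ne' hx
  have h1 : HasFDerivAt (fun y : (E q) => fderiv ℝ f (t • y)) ((g f (t • x)).comp (t • ContinuousLinearMap.id ℝ (E q))) x :=
    (hd_dE D htx).comp x ((hasFDerivAt_id x).const_smul t)
  have h2 : HasFDerivAt (fun y : (E q) => t • fderiv ℝ f y) (t • g f x) x := (hd_dE D hx).const_smul t
  have h3 : (fun y : (E q) => fderiv ℝ f (t • y)) =ᶠ[𝓝 x] (fun y : (E q) => t • fderiv ℝ f y) := by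
    filter_upwards [ne_ev hx] with y hy
    exact dE_hom D hy ht
  have h4 := (h2.congr_of_eventuallyEq h3).unique h1
  ext v w
  have h5 := congrArg (fun L : (E q) →L[ℝ] (E q) →L[ℝ] ℝ => L v w) h4
  simp at h5 ⊢
  rcases h5 with h5 | h5
  · exact h5.symm
  · exact absurd h5 ht.ne'

lemma C_x (D : Dat f) {x : (E q)} (hx : x ≠ 0) : C f x x = 0 := by
  have h1 : HasDerivAt (fun t : ℝ => g f (t • x)) (C f ((1:ℝ) • x) ((1:ℝ) • x)) 1 := by
    have ha : HasDerivAt (fun t : ℝ => t • x) ((1:ℝ) • x) 1 := (hasDerivAt_id (1:ℝ)).smul_const x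
    have hb : HasFDerivAt (g f) (C f ((1:ℝ) • x)) ((1:ℝ) • x) := hd_g D (by simpa using hx)
    exact hb.comp_hasDerivAt 1 ha
  have h2 : HasDerivAt (fun _ : ℝ => g f x) 0 1 := hasDerivAt_const _ _
  have h3 : (fun t : ℝ => g f (t • x)) =ᶠ[𝓝 1] (fun _ : ℝ => g f x) := by
    filter_upwards [lt_mem_nhds (show (0:ℝ) < 1 by norm_num)] with t ht
    exact g_hom D hx ht
  have h4 := (h2.congr_of_eventuallyEq h3).unique h1
  simpa using h4.symm

lemma g_x (D : Dat f) {x : (E q)} (hx : x ≠ 0) : g f x x = fderiv ℝ f x := by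
  have h1 : HasDerivAt (fun t : ℝ => fderiv ℝ f (t • x)) (g f ((1:ℝ) • x) ((1:ℝ) • x)) 1 := by
    have ha : HasDerivAt (fun t : ℝ => t • x) ((1:ℝ) • x) 1 := (hasDerivAt_id (1:ℝ)).smul_const x
    have hb : HasFDerivAt (fderiv ℝ f) (g f ((1:ℝ) • x)) ((1:ℝ) • x) := hd_dE D (by simpa using hx)
    exact hb.comp_hasDerivAt 1 ha
  have h2 : HasDerivAt (fun t : ℝ => t • fderiv ℝ f x) ((1:ℝ) • fderiv ℝ f x) 1 := (hasDerivAt_id (1:ℝ)).smul_const _
  have h3 : (fun t : ℝ => fderiv ℝ f (t • x)) =ᶠ[𝓝 1] (fun t : ℝ => t • fderiv ℝ f x) := by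
    filter_upwards [lt_mem_nhds (show (0:ℝ) < 1 by norm_num)] with t ht
    exact dE_hom D hx ht
  have h4 := (h2.congr_of_eventuallyEq h3).unique h1
  simpa using h4.symm

lemma E_x (D : Dat f) {x : (E q)} (hx : x ≠ 0) : fderiv ℝ f x x = 2 * f x := by
  have h1 : HasDerivAt (fun t : ℝ => f (t • x)) (fderiv ℝ f ((1:ℝ) • x) ((1:ℝ) • x)) 1 := by
    have ha : HasDerivAt (fun t : ℝ => t • x) ((1:ℝ) • x) 1 := (hasDerivAt_id (1:ℝ)).smul_const x
    have hb : HasFDerivAt f (fderiv ℝ f ((1:ℝ) • x)) ((1:ℝ) • x) := hd_E D (by simpa using hx)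
    exact hb.comp_hasDerivAt 1 ha
  have h2 : HasDerivAt (fun t : ℝ => t^2 * f x) (2 * 1 * f x) 1 := by
    have := (hasDerivAt_pow 2 (1:ℝ)).mul_const (f x)
    simpa using this
  have h3 : (fun t : ℝ => f (t • x)) =ᶠ[𝓝 1] (fun t : ℝ => t^2 * f x) := by
    filter_upwards [lt_mem_nhds (show (0:ℝ) < 1 by norm_num)] with t ht
    exact D.hom t x ht
  have h4 := (h2.congr_of_eventuallyEq h3).unique h1
  simp at h4
  linarith

lemma g_xx (D : Dat f) {x : (E q)} (hx : x ≠ 0) : g f x x x = 2 * f x := by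
  rw [g_x D hx, E_x D hx]


/-! ### the operator `G` -/

noncomputable def bs (i : Fin (q + 2)) : E q := EuclideanSpace.single i (1:ℝ)

theorem vexp (v : E q) : v = ∑ i, v i • bs i := by
  ext j
  simp [bs, Pi.single_apply]

theorem inner_bs (i : Fin (q + 2)) (v : E q) : ⟪bs i, v⟫_ℝ = v i := by
  simp [bs, EuclideanSpace.inner_single_left]

theorem lexp (φ : E q →L[ℝ] ℝ) (v : E q) : φ v = ∑ i, v i * φ (bs i) := by
  conv_lhs => rw [vexp v]
  simp [map_sum]

noncomputable def T : (E q →L[ℝ] ℝ) →L[ℝ] E q :=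
  ∑ i, (ContinuousLinearMap.apply ℝ ℝ (bs i)).smulRight (bs i)

theorem T_apply (φ : E q →L[ℝ] ℝ) : T φ = ∑ i, φ (bs i) • bs i := by
  simp [T]

theorem inner_T (φ : E q →L[ℝ] ℝ) (v : E q) : ⟪T φ, v⟫_ℝ = φ v := by
  rw [T_apply, sum_inner, lexp φ v]
  refine Finset.sum_congr rfl fun i _ => ?_
  rw [real_inner_smul_left, inner_bs, mul_comm]

noncomputable def GG (f : E q → ℝ) (y : E q) : E q →L[ℝ] E q := T.comp (g f y)

theorem inner_GG (f : E q → ℝ) (y a b : E q) : ⟪GG f y a, b⟫_ℝ = g f y a b := inner_T _ _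

theorem sm_GG (D : Dat f) {x : E q} (hx : x ≠ 0) : ContDiffAt ℝ ∞ (GG f) x :=
  contDiffAt_const.clm_comp (sm_g D hx)

theorem fd_GG (D : Dat f) {x : E q} (hx : x ≠ 0) (v a : E q) :
    fderiv ℝ (GG f) x v a = T (C f x v a) := by
  have h1 : HasFDerivAt (GG f) _ x := (hasFDerivAt_const T x).clm_comp (hd_g D hx)
  rw [h1.fderiv]
  simp

theorem inner_fd (D : Dat f) {x : E q} (hx : x ≠ 0) (v a b : E q) :
    ⟪fderiv ℝ (GG f) x v a, b⟫_ℝ = C f x v a b := by
  rw [fd_GG D hx, inner_T]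

theorem unit_GG (D : Dat f) {x : E q} (hx : x ≠ 0) : IsUnit (GG f x) := by
  rw [ContinuousLinearMap.isUnit_iff_bijective]
  have hinj : Function.Injective (GG f x) := by
    rw [injective_iff_map_eq_zero]
    intro a ha
    by_contra h0
    have h1 := D.pos x hx a h0
    rw [← inner_GG, ha, inner_zero_left] at h1
    exact lt_irrefl _ h1
  exact ⟨hinj, (LinearMap.injective_iff_surjective (f := (GG f x).toLinearMap)).1 hinj⟩

theorem GG_inj (D : Dat f) {x : E q} (hx : x ≠ 0) {a b : E q}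
    (h : ∀ c, ⟪GG f x a, c⟫_ℝ = ⟪GG f x b, c⟫_ℝ) : a = b := by
  have h1 := ((ContinuousLinearMap.isUnit_iff_bijective).1 (unit_GG D hx)).1
  exact h1 (ext_inner_right ℝ h)

/-- the inverse -/
noncomputable def Gi (f : E q → ℝ) (x : E q) : E q →L[ℝ] E q := Ring.inverse (GG f x)

theorem GG_Gi (D : Dat f) {x : E q} (hx : x ≠ 0) (v : E q) : GG f x (Gi f x v) = v := by
  have h1 := Ring.mul_inverse_cancel _ (unit_GG D hx)
  exact congrArg (fun L : E q →L[ℝ] E q => L v) h1

theorem sm_Gi (D : Dat f) {x : E q} (hx : x ≠ 0) : ContDiffAt ℝ ∞ (Gi f) x := by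
  obtain ⟨u, hu⟩ := unit_GG D hx
  have h1 : ContDiffAt ℝ ∞ Ring.inverse (GG f x) := by
    rw [← hu]
    exact contDiffAt_ringInverse ℝ u
  exact h1.comp x (sm_GG D hx)

noncomputable def MM (f : E q → ℝ) : TF q := fun x =>
  (1 / 2 : ℝ) • ((ContinuousLinearMap.compL ℝ (E q) (E q) (E q) (Gi f x)).comp
    (fderiv ℝ (GG f) x))

theorem MM_apply (f : E q → ℝ) (x a b : E q) :
    MM f x a b = (1 / 2 : ℝ) • Gi f x (fderiv ℝ (GG f) x a b) := rfl

theorem sm_fdGG (D : Dat f) {x : E q} (hx : x ≠ 0) : ContDiffAt ℝ ∞ (fderiv ℝ (GG f)) x :=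
  (sm_GG D hx).fderiv_right top_add_one

theorem sm_MM (D : Dat f) {x : E q} (hx : x ≠ 0) : ContDiffAt ℝ ∞ (MM f) x := by
  have h1 : ContDiffAt ℝ ∞ (fun x => ContinuousLinearMap.compL ℝ (E q) (E q) (E q) (Gi f x)) x :=
    (ContinuousLinearMap.contDiff _).contDiffAt.comp x (sm_Gi D hx)
  exact (h1.clm_comp (sm_fdGG D hx)).const_smul (1 / 2 : ℝ)

theorem GM (D : Dat f) {x : E q} (hx : x ≠ 0) (a b : E q) :
    GG f x (MM f x a b) = (1 / 2 : ℝ) • fderiv ℝ (GG f) x a b := by
  rw [MM_apply, map_smul, GG_Gi D hx]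

theorem inner_GM (D : Dat f) {x : E q} (hx : x ≠ 0) (a b c : E q) :
    ⟪GG f x (MM f x a b), c⟫_ℝ = 1 / 2 * C f x a b c := by
  rw [GM D hx, real_inner_smul_left, inner_fd D hx]

theorem M12 (D : Dat f) {x : E q} (hx : x ≠ 0) (a b : E q) : MM f x a b = MM f x b a :=
  GG_inj D hx fun c => by rw [inner_GM D hx, inner_GM D hx, C_s12 D hx]

theorem Mrad (D : Dat f) {x : E q} (hx : x ≠ 0) : MM f x x = 0 := by
  refine ContinuousLinearMap.ext fun b => ?_
  refine GG_inj D hx fun c => ?_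
  rw [inner_GM D hx, C_x D hx]
  simp

theorem C_hom (D : Dat f) {x : E q} (hx : x ≠ 0) {t : ℝ} (ht : 0 < t) :
    C f (t • x) = t⁻¹ • C f x := by
  have htx : t • x ≠ 0 := smul_ne_zero ht.ne' hx
  have h1 : HasFDerivAt (fun y : E q => g f (t • y))
      ((C f (t • x)).comp (t • ContinuousLinearMap.id ℝ (E q))) x :=
    (hd_g D htx).comp x ((hasFDerivAt_id x).const_smul t)
  have h3 : (fun y : E q => g f (t • y)) =ᶠ[𝓝 x] g f := by
    filter_upwards [ne_ev hx] with y hy
    exact g_hom D hy ht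
  have h4 := ((hd_g D hx).congr_of_eventuallyEq h3).unique h1
  refine ContinuousLinearMap.ext fun v => ?_
  have h5 := congrArg (fun L => L v) h4
  have h6 : C f x v = t • C f (t • x) v := by
    rw [h5]
    show C f (t • x) (t • v) = _
    rw [map_smul]
  show C f (t • x) v = t⁻¹ • C f x v
  rw [h6, smul_smul, inv_mul_cancel₀ ht.ne', one_smul]

theorem GG_hom (D : Dat f) {x : E q} (hx : x ≠ 0) {t : ℝ} (ht : 0 < t) :
    GG f (t • x) = GG f x := by
  unfold GG
  rw [g_hom D hx ht]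

theorem Mhom (D : Dat f) {x : E q} (hx : x ≠ 0) {t : ℝ} (ht : 0 < t) :
    MM f (t • x) = t⁻¹ • MM f x := by
  have htx : t • x ≠ 0 := smul_ne_zero ht.ne' hx
  refine ContinuousLinearMap.ext fun a => ContinuousLinearMap.ext fun b => ?_
  refine GG_inj D hx fun c => ?_
  have h1 := inner_GM D htx a b c
  rw [GG_hom D hx ht] at h1
  rw [h1, C_hom D hx ht]
  have h2 : (t⁻¹ • MM f x) a b = t⁻¹ • MM f x a b := rfl
  have h3 : (t⁻¹ • C f x) a b c = t⁻¹ * C f x a b c := rfl
  rw [h2, h3, map_smul, real_inner_smul_left, inner_GM D hx]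
  ring

/-! ### the curvature hypothesis -/

def Flat (f : E q → ℝ) : Prop := ∀ x : E q, x ≠ 0 → ∀ i j k l : Fin (q + 2),
  ∑ p : Fin (q + 2), ∑ r : Fin (q + 2),
    (Matrix.of fun a b : Fin (q + 2) => g f x (bs a) (bs b))⁻¹ p r *
    (C f x (bs i) (bs k) (bs p) * C f x (bs j) (bs l) (bs r)
      - C f x (bs i) (bs l) (bs p) * C f x (bs j) (bs k) (bs r)) = 0

noncomputable def KK (f : E q → ℝ) (x : E q) (φ ψ : E q →L[ℝ] ℝ) : ℝ := ⟪T φ, Gi f x (T ψ)⟫_ℝ

theorem KK_symm (D : Dat f) {x : E q} (hx : x ≠ 0) (φ ψ : E q →L[ℝ] ℝ) :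
    KK f x φ ψ = KK f x ψ φ := by
  unfold KK
  have h1 : ∀ φ ψ : E q →L[ℝ] ℝ, ⟪T φ, Gi f x (T ψ)⟫_ℝ =
      g f x (Gi f x (T φ)) (Gi f x (T ψ)) := by
    intro φ ψ
    rw [← inner_GG, GG_Gi D hx]
  rw [h1, h1, g_symm D hx]

theorem inv_mat (D : Dat f) {x : E q} (hx : x ≠ 0) (p r : Fin (q + 2)) :
    (Matrix.of fun a b : Fin (q + 2) => g f x (bs a) (bs b))⁻¹ p r = ⟪bs p, Gi f x (bs r)⟫_ℝ := by
  have h1 : (Matrix.of fun a b : Fin (q + 2) => g f x (bs a) (bs b)) *
      (Matrix.of fun p r : Fin (q + 2) => ⟪bs p, Gi f x (bs r)⟫_ℝ) = 1 := by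
    ext a c
    rw [Matrix.mul_apply, Matrix.one_apply]
    simp only [Matrix.of_apply, inner_bs]
    have h2 : ∑ j, g f x (bs a) (bs j) * (Gi f x (bs c)) j = g f x (bs a) (Gi f x (bs c)) := by
      rw [lexp (g f x (bs a))]
      exact Finset.sum_congr rfl fun j _ => mul_comm _ _
    rw [h2, g_symm D hx, ← inner_GG, GG_Gi D hx, real_inner_comm, inner_bs]
    simp [bs, PiLp.single_apply, eq_comm]
  rw [Matrix.inv_eq_right_inv h1]
  rfl

theorem KK_sum (D : Dat f) {x : E q} (hx : x ≠ 0) (φ ψ : E q →L[ℝ] ℝ) :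
    KK f x φ ψ = ∑ p, ∑ r, (Matrix.of fun a b : Fin (q + 2) => g f x (bs a) (bs b))⁻¹ p r *
      (φ (bs p) * ψ (bs r)) := by
  unfold KK
  rw [T_apply φ, T_apply ψ, map_sum, sum_inner]
  refine Finset.sum_congr rfl fun p _ => ?_
  rw [inner_sum]
  refine Finset.sum_congr rfl fun r _ => ?_
  rw [map_smul, real_inner_smul_left, real_inner_smul_right, inv_mat D hx]
  ring

theorem lin0 (L : E q →ₗ[ℝ] ℝ) (h : ∀ i, L (bs i) = 0) (a : E q) : L a = 0 := by
  rw [vexp a]
  simp [h]

noncomputable def TT (f : E q → ℝ) (x a b c d : E q) : ℝ :=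
  KK f x (C f x a b) (C f x c d) - KK f x (C f x a d) (C f x c b)

theorem curv (D : Dat f) (Fl : Flat f) {x : E q} (hx : x ≠ 0) (a b c d : E q) :
    TT f x a b c d = 0 := by
  have h0 : ∀ i k j l, TT f x (bs i) (bs k) (bs j) (bs l) = 0 := by
    intro i k j l
    unfold TT
    rw [KK_sum D hx, KK_sum D hx, ← Fl x hx i j k l, ← Finset.sum_sub_distrib]
    refine Finset.sum_congr rfl fun p _ => ?_
    rw [← Finset.sum_sub_distrib]
    refine Finset.sum_congr rfl fun r _ => ?_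
    ring
  have h1 : ∀ k j l, ∀ a, TT f x a (bs k) (bs j) (bs l) = 0 := by
    intro k j l a
    exact lin0 { toFun := fun a => TT f x a (bs k) (bs j) (bs l)
                 map_add' := by
                  intro u v
                  simp only [TT, KK, map_add, _root_.add_apply, inner_add_left,
                    inner_add_right]
                  ring
                 map_smul' := by
                  intro t u
                  simp only [TT, KK, map_smul, _root_.smul_apply,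
                    real_inner_smul_left, real_inner_smul_right, smul_eq_mul, RingHom.id_apply]
                  ring } (fun i => h0 i k j l) a
  have h2 : ∀ j l, ∀ a b, TT f x a b (bs j) (bs l) = 0 := by
    intro j l a b
    exact lin0 { toFun := fun b => TT f x a b (bs j) (bs l)
                 map_add' := by
                  intro u v
                  simp only [TT, KK, map_add, _root_.add_apply, inner_add_left,
                    inner_add_right]
                  ring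
                 map_smul' := by
                  intro t u
                  simp only [TT, KK, map_smul, _root_.smul_apply,
                    real_inner_smul_left, real_inner_smul_right, smul_eq_mul, RingHom.id_apply]
                  ring } (fun k => h1 k j l a) b
  have h3 : ∀ l, ∀ a b c, TT f x a b c (bs l) = 0 := by
    intro l a b c
    exact lin0 { toFun := fun c => TT f x a b c (bs l)
                 map_add' := by
                  intro u v
                  simp only [TT, KK, map_add, _root_.add_apply, inner_add_left,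
                    inner_add_right]
                  ring
                 map_smul' := by
                  intro t u
                  simp only [TT, KK, map_smul, _root_.smul_apply,
                    real_inner_smul_left, real_inner_smul_right, smul_eq_mul, RingHom.id_apply]
                  ring } (fun j => h2 j l a b) c
  exact lin0 { toFun := fun d => TT f x a b c d
               map_add' := by
                intro u v
                simp only [TT, KK, map_add, _root_.add_apply, inner_add_left,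
                  inner_add_right]
                ring
               map_smul' := by
                intro t u
                simp only [TT, KK, map_smul, _root_.smul_apply,
                  real_inner_smul_left, real_inner_smul_right, smul_eq_mul, RingHom.id_apply]
                ring } (fun l => h3 l a b c) d

theorem inner_GMM (D : Dat f) {x : E q} (hx : x ≠ 0) (a b c d : E q) :
    ⟪GG f x (MM f x a (MM f x b c)), d⟫_ℝ = 1 / 4 * KK f x (C f x a d) (C f x b c) := by
  rw [inner_GM D hx, C_s23 D hx, ← inner_T, MM_apply, real_inner_smul_right, fd_GG D hx]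
  unfold KK
  ring

theorem Mcomm (D : Dat f) (Fl : Flat f) {x : E q} (hx : x ≠ 0) (a b c : E q) :
    MM f x a (MM f x b c) = MM f x b (MM f x a c) := by
  refine GG_inj D hx fun d => ?_
  rw [inner_GMM D hx, inner_GMM D hx]
  have h1 := curv D Fl hx a d b c
  unfold TT at h1
  rw [KK_symm D hx (C f x b d) (C f x a c)]
  linarith

theorem Mcod (D : Dat f) (Fl : Flat f) {x : E q} (hx : x ≠ 0) (u v : E q) :
    fderiv ℝ (MM f) x u v = fderiv ℝ (MM f) x v u := by
  have hM : HasFDerivAt (MM f) (fderiv ℝ (MM f) x) x :=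
    ((sm_MM D hx).differentiableAt top_ne_zero').hasFDerivAt
  have hG : HasFDerivAt (GG f) (fderiv ℝ (GG f) x) x :=
    ((sm_GG D hx).differentiableAt top_ne_zero').hasFDerivAt
  have hdG : HasFDerivAt (fderiv ℝ (GG f)) (fderiv ℝ (fderiv ℝ (GG f)) x) x :=
    ((sm_fdGG D hx).differentiableAt top_ne_zero').hasFDerivAt
  have key : ∀ u v b : E q, (1 / 2 : ℝ) • fderiv ℝ (fderiv ℝ (GG f)) x u v b =
      GG f x (fderiv ℝ (MM f) x u v b) + fderiv ℝ (GG f) x u (MM f x v b) := by
    intro u v b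
    have h1 : HasFDerivAt (fun y => GG f y (MM f y v b)) _ x :=
      hG.clm_apply ((hM.clm_apply (hasFDerivAt_const v x)).clm_apply (hasFDerivAt_const b x))
    have h2 : HasFDerivAt (fun y => (1 / 2 : ℝ) • fderiv ℝ (GG f) y v b) _ x :=
      ((hdG.clm_apply (hasFDerivAt_const v x)).clm_apply (hasFDerivAt_const b x)).const_smul
        (1 / 2 : ℝ)
    have h3 : (fun y => (1 / 2 : ℝ) • fderiv ℝ (GG f) y v b) =ᶠ[𝓝 x]
        (fun y => GG f y (MM f y v b)) := by
      filter_upwards [ne_ev hx] with y hy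
      exact (GM D hy v b).symm
    have h4 := (h1.congr_of_eventuallyEq h3).unique h2
    have h5 := congrArg (fun L : E q →L[ℝ] E q => L u) h4
    simpa using h5.symm
  have hD : ∀ a b : E q, fderiv ℝ (GG f) x a b = (2:ℝ) • GG f x (MM f x a b) := by
    intro a b
    rw [GM D hx, smul_smul]
    norm_num
  refine ContinuousLinearMap.ext fun b => ?_
  refine GG_inj D hx fun c => ?_
  have k1 := key u v b
  have k2 := key v u b
  have s := symmAux (sm_GG D hx) u v
  have s' : fderiv ℝ (fderiv ℝ (GG f)) x u v b = fderiv ℝ (fderiv ℝ (GG f)) x v u b := by rw [s]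
  rw [s', k2, hD, hD, Mcomm D Fl hx v u b] at k1
  have k3 := add_right_cancel k1
  rw [← k3]

theorem toHD (hq : 1 ≤ q) (D : Dat f) (Fl : Flat f) : HD q (GG f) (MM f) where
  q1 := hq
  Gsm := fun y hy => sm_GG D hy
  Gsymm := fun y hy a b => by rw [inner_GG, inner_GG, g_symm D hy]
  Gpos := fun y hy v hv => by rw [inner_GG]; exact D.pos y hy v hv
  Ghom := fun y hy r hr => GG_hom D hy hr
  Msm := fun y hy => sm_MM D hy
  Mhom := fun y hy r hr => Mhom D hy hr
  dG := fun y hy v => by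
    refine ContinuousLinearMap.ext fun b => ?_
    show fderiv ℝ (GG f) y v b = (2:ℝ) • GG f y (MM f y v b)
    rw [GM D hy, smul_smul]
    norm_num
  M12 := fun y hy a b => M12 D hy a b
  Mrad := fun y hy => Mrad D hy
  Mcomm := fun y hy a b c => Mcomm D Fl hy a b c
  Mcod := fun y hy u v => Mcod D Fl hy u v

/-! ### the frozen hypotheses -/

noncomputable def ev (q : ℕ) : E q ≃L[ℝ] (Fin (q + 2) → ℝ) := EuclideanSpace.equiv (Fin (q + 2)) ℝ

theorem ev_apply (y : E q) : ev q y = WithLp.ofLp y := rfl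

theorem ev_bs (i : Fin (q + 2)) : ev q (bs i) = Pi.single i (1:ℝ) := by
  funext j
  rw [ev_apply]
  simp [bs, PiLp.single_apply, Pi.single_apply]

theorem itc (e0 : (Fin (q + 2) → ℝ) → ℝ) (y : E q) (i : ℕ) :
    iteratedFDeriv ℝ i (e0 ∘ ev q) y = (iteratedFDeriv ℝ i e0 (ev q y)).compContinuousLinearMap
      fun _ => (ev q : E q →L[ℝ] (Fin (q + 2) → ℝ)) := by
  have h := (ev q).iteratedFDerivWithin_comp_right e0 uniqueDiffOn_univ (x := y) (mem_univ _) i
  simpa only [preimage_univ, iteratedFDerivWithin_univ] using h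

theorem it2 (e0 : (Fin (q + 2) → ℝ) → ℝ) (y a b : E q) :
    iteratedFDeriv ℝ 2 e0 (ev q y) ![ev q a, ev q b] = g (e0 ∘ ev q) y a b := by
  have h1 := itc e0 y 2
  have h2 : iteratedFDeriv ℝ 2 (e0 ∘ ev q) y ![a, b] = g (e0 ∘ ev q) y a b := by
    rw [iteratedFDeriv_two_apply]; rfl
  rw [← h2, h1, ContinuousMultilinearMap.compContinuousLinearMap_apply]
  congr 1
  funext i
  fin_cases i <;> rfl

theorem it3 (e0 : (Fin (q + 2) → ℝ) → ℝ) (y a b c : E q) :
    iteratedFDeriv ℝ 3 e0 (ev q y) ![ev q a, ev q b, ev q c] = C (e0 ∘ ev q) y a b c := by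
  have h1 := itc e0 y 3
  have h2 : iteratedFDeriv ℝ 3 (e0 ∘ ev q) y ![a, b, c] = C (e0 ∘ ev q) y a b c := by
    have h : iteratedFDeriv ℝ 3 (e0 ∘ ev q) y ![a, b, c] =
        iteratedFDeriv ℝ 2 (fun y => fderiv ℝ (e0 ∘ ev q) y) y (Fin.init ![a,b,c])
          (![a,b,c] (Fin.last 2)) :=
      iteratedFDeriv_succ_apply_right ![a,b,c]
    rw [h, iteratedFDeriv_two_apply]
    rfl
  rw [← h2, h1, ContinuousMultilinearMap.compContinuousLinearMap_apply]
  congr 1
  funext i
  fin_cases i <;> rfl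

theorem gexp (f : E q → ℝ) (x u v : E q) :
    g f x u v = ∑ p, ∑ r, u p * v r * g f x (bs p) (bs r) := by
  have h1 : g f x u v = ∑ p, u p * g f x (bs p) v := by
    conv_lhs => rw [vexp u]
    simp [map_sum]
  rw [h1]
  refine Finset.sum_congr rfl fun p _ => ?_
  rw [lexp (g f x (bs p)) v, Finset.mul_sum]
  refine Finset.sum_congr rfl fun r _ => ?_
  ring

theorem tr1 : S_TR1 := by
  intro q hq F hsm hpos hhom hpd hflat
  set e0 : (Fin (q + 2) → ℝ) → ℝ := fun y => F y ^ 2 / 2 with he0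
  set f : E q → ℝ := e0 ∘ ev q with hf
  have hne : ∀ y : E q, y ≠ 0 → ev q y ≠ 0 := by
    intro y hy h
    exact hy ((ev q).map_eq_zero_iff.1 h)
  have D : Dat f := by
    refine ⟨?_, ?_, ?_⟩
    · intro x hx
      have h1 : ContDiffAt ℝ ((⊤ : ℕ∞) : WithTop ℕ∞) F (ev q x) :=
        (hsm (ev q x) (hne x hx)).contDiffAt (isOpen_ne.mem_nhds (hne x hx))
      have h2 : ContDiffAt ℝ ((⊤ : ℕ∞) : WithTop ℕ∞) e0 (ev q x) := (h1.pow 2).div_const 2
      exact h2.comp x (ev q).contDiff.contDiffAt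
    · intro t x ht
      simp only [hf, he0, Function.comp_apply, map_smul]
      rw [hhom t _ ht.le]
      ring
    · intro x hx v hv
      have h1 := (hpd (ev q x) (hne x hx)).dotProduct_mulVec_pos (hne v hv)
      rw [gexp]
      refine h1.trans_eq ?_
      simp only [dotProduct, Matrix.mulVec, Finset.mul_sum, Matrix.of_apply]
      refine Finset.sum_congr rfl fun p _ => Finset.sum_congr rfl fun r _ => ?_
      rw [← ev_bs, ← ev_bs, it2]
      simp only [star_trivial]
      show ev q v p * (g f x (bs p) (bs r) * ev q v r) = _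
      rw [ev_apply]
      ring
  have Fl : Flat f := by
    intro x hx i j k l
    have h1 := hflat (ev q x) (hne x hx) i j k l
    have e1 : (Matrix.of fun a b : Fin (q + 2) =>
          iteratedFDeriv ℝ 2 (fun y : Fin (q + 2) → ℝ => F y ^ 2 / 2) (ev q x)
            ![(Pi.single a (1 : ℝ) : Fin (q + 2) → ℝ), (Pi.single b (1 : ℝ) : Fin (q + 2) → ℝ)]) =
        (Matrix.of fun a b : Fin (q + 2) => g f x (bs a) (bs b)) := by
      ext a b
      rw [Matrix.of_apply, Matrix.of_apply, ← ev_bs, ← ev_bs]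
      exact it2 e0 x _ _
    have e2 : ∀ a b c : Fin (q + 2), iteratedFDeriv ℝ 3 (fun y : Fin (q + 2) → ℝ => F y ^ 2 / 2)
        (ev q x) ![(Pi.single a (1 : ℝ) : Fin (q + 2) → ℝ), (Pi.single b (1 : ℝ) : Fin (q + 2) → ℝ),
          (Pi.single c (1 : ℝ) : Fin (q + 2) → ℝ)] = C f x (bs a) (bs b) (bs c) := by
      intro a b c
      rw [← ev_bs, ← ev_bs, ← ev_bs]
      exact it3 e0 x _ _ _
    refine Eq.trans ?_ h1
    refine Finset.sum_congr rfl fun p _ => Finset.sum_congr rfl fun r _ => ?_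
    rw [e2, e2, e2, e2, e1]
  refine ⟨GG f, MM f, toHD hq D Fl, ?_⟩
  intro y hy
  rw [inner_GG, g_xx D hy]
  show F (WithLp.ofLp y) ^ 2 = 2 * (F (ev q y) ^ 2 / 2)
  rw [ev_apply]
  ring

end Pool.Agent.W369.LG.TR1
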