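import Pool.Agent.W617.LG.StmI

/-! Laugwitz' problem: injectivity of `Z_κ(y) = N^κ(y) y`. -/

set_option autoImplicit false
open Topology Filter Set Metric
open scoped ContDiff InnerProductSpace NNReal

namespace Pool.Agent.W369.LG

open Pool.Agent.W617.LG

variable {q : ℕ} {G : E q → E q →L[ℝ] E q} {M : TF q} {N : ℝ → E q → (E q →L[ℝ] E q)}

theorem hasFDerivAt_Z (hd : HD q G M) (nf : NF q M N) (κ : ℝ) {y : E q} (hy : y ≠ 0) :
    HasFDerivAt (fun y => N κ y y) (N κ y) y := by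
  have h1 := (nf.der κ y hy).clm_apply (hasFDerivAt_id y)
  refine h1.congr_fderiv ?_
  refine ContinuousLinearMap.ext fun v => ?_
  have h2 : M y v y = 0 := by
    rw [hd.M12 y hy, hd.Mrad y hy]
    rfl
  have h3 : ((N κ y).comp (ContinuousLinearMap.id ℝ (E q)) + (κ •
      (ContinuousLinearMap.compL ℝ (E q) (E q) (E q) (N κ y)).comp (M y)).flip (id y)) v =
      N κ y v + κ • N κ y (M y v y) := rfl
  rw [h3, h2, map_zero, smul_zero, add_zero]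

theorem Z_hom (nf : NF q M N) (κ : ℝ) {y : E q} (hy : y ≠ 0) {r : ℝ} (hr : 0 < r) :
    N κ (r • y) (r • y) = r • N κ y y := by
  rw [nf.hom κ y hy r hr, map_smul]

theorem Z_ne (nf : NF q M N) (κ : ℝ) {y : E q} (hy : y ≠ 0) : N κ y y ≠ 0 := by
  obtain ⟨u, hu⟩ := nf.unit κ y hy
  intro h
  have h1 : (↑u⁻¹ : E q →L[ℝ] E q) (N κ y y) = y := by
    rw [← hu]
    have : ((↑u⁻¹ : E q →L[ℝ] E q) * (u : E q →L[ℝ] E q)) y = y := by
      rw [Units.inv_mul]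
      rfl
    exact this
  rw [h, map_zero] at h1
  exact hy h1.symm

theorem Z_cont (nf : NF q M N) :
    ContinuousOn (fun p : ℝ × E q => N p.1 p.2 p.2) {p | p.2 ≠ 0} :=
  nf.cont.clm_apply continuousOn_snd

theorem isOpen_ne0 : IsOpen {p : ℝ × E q | p.2 ≠ 0} :=
  isOpen_ne.preimage continuous_snd

/-- uniform local approximation by a linear equivalence -/
theorem loc (hd : HD q G M) (nf : NF q M N) (κ₀ : ℝ) {y₀ : E q} (hy₀ : y₀ ≠ 0) :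
    ∃ (P : E q ≃L[ℝ] E q) (ε : ℝ), 0 < ε ∧ ε < ‖y₀‖ ∧ ∀ κ, |κ - κ₀| < ε →
      ApproximatesLinearOn (fun y => N κ y y) (P : E q →L[ℝ] E q) (ball y₀ ε)
        (‖(P.symm : E q →L[ℝ] E q)‖₊⁻¹ / 2) := by
  obtain ⟨u, hu⟩ := nf.unit κ₀ y₀ hy₀
  set P : E q ≃L[ℝ] E q := ContinuousLinearEquiv.unitsEquiv ℝ (E q) u with hP
  have hPN : (P : E q →L[ℝ] E q) = N κ₀ y₀ := by
    rw [← hu]
    refine ContinuousLinearMap.ext fun v => ?_
    rfl
  set c : ℝ≥0 := ‖(P.symm : E q →L[ℝ] E q)‖₊⁻¹ / 2 with hc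
  have hPs : 0 < ‖(P.symm : E q →L[ℝ] E q)‖₊ := P.nnnorm_symm_pos
  have hc0 : 0 < c := by positivity
  have hcont : ContinuousAt (fun p : ℝ × E q => N p.1 p.2) (κ₀, y₀) :=
    nf.cont.continuousAt (isOpen_ne0.mem_nhds hy₀)
  obtain ⟨δ, hδ, hball⟩ := Metric.continuousAt_iff.1 hcont c (by exact_mod_cast hc0)
  have hny : 0 < ‖y₀‖ := norm_pos_iff.2 hy₀
  refine ⟨P, min δ (‖y₀‖ / 2), by positivity, ?_, ?_⟩
  · exact lt_of_le_of_lt (min_le_right _ _) (by linarith)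
  intro κ hκ x hx y hy
  have hne : ∀ z ∈ ball y₀ (min δ (‖y₀‖ / 2)), z ≠ 0 := by
    intro z hz hz0
    rw [mem_ball, hz0, dist_zero_left] at hz
    have := hz.trans_le (min_le_right _ _)
    linarith
  have h1 : ∀ z ∈ ball y₀ (min δ (‖y₀‖ / 2)), HasFDerivWithinAt (fun y => N κ y y) (N κ z)
      (ball y₀ (min δ (‖y₀‖ / 2))) z := fun z hz =>
    (hasFDerivAt_Z hd nf κ (hne z hz)).hasFDerivWithinAt
  have h2 : ∀ z ∈ ball y₀ (min δ (‖y₀‖ / 2)), ‖N κ z - (P : E q →L[ℝ] E q)‖ ≤ c := by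
    intro z hz
    have h3 : dist (κ, z) (κ₀, y₀) < δ := by
      rw [Prod.dist_eq, max_lt_iff]
      refine ⟨?_, hz.trans_le (min_le_left _ _)⟩
      rw [Real.dist_eq]
      exact hκ.trans_le (min_le_left _ _)
    have h4 := hball h3
    rw [dist_eq_norm] at h4
    rw [hPN]
    exact h4.le
  exact (convex_ball _ _).norm_image_sub_le_of_norm_hasFDerivWithin_le' h1 h2 hy hx

/-- uniform local injectivity -/
theorem loc_inj (hd : HD q G M) (nf : NF q M N) (κ₀ : ℝ) {y₀ : E q} (hy₀ : y₀ ≠ 0) :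
    ∃ ε : ℝ, 0 < ε ∧ ∀ κ, |κ - κ₀| < ε → InjOn (fun y => N κ y y) (ball y₀ ε) := by
  obtain ⟨P, ε, hε, _, h⟩ := loc hd nf κ₀ hy₀
  refine ⟨ε, hε, fun κ hκ => (h κ hκ).injOn (Or.inr ?_)⟩
  have hPs : 0 < ‖(P.symm : E q →L[ℝ] E q)‖₊ := P.nnnorm_symm_pos
  exact NNReal.half_lt_self (inv_pos.2 hPs).ne'

/-- uniform local surjectivity -/
theorem loc_surj (hd : HD q G M) (nf : NF q M N) (κ₀ : ℝ) {y₀ : E q} (hy₀ : y₀ ≠ 0) {e : ℝ}
    (he : 0 < e) : ∀ᶠ κ in 𝓝 κ₀, ∃ y, y ≠ 0 ∧ dist y y₀ ≤ e ∧ N κ y y = N κ₀ y₀ y₀ := by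
  obtain ⟨P, ε, hε, hε2, h⟩ := loc hd nf κ₀ hy₀
  have hPs : 0 < ‖(P.symm : E q →L[ℝ] E q)‖₊ := P.nnnorm_symm_pos
  have hPs' : (0:ℝ) < (‖(P.symm : E q →L[ℝ] E q)‖₊ : ℝ) := by exact_mod_cast hPs
  set e' : ℝ := min e (ε / 2) with he'
  have he'0 : 0 < e' := by positivity
  set r : ℝ := ((‖(P.symm : E q →L[ℝ] E q)‖₊ : ℝ)⁻¹ -
    ((‖(P.symm : E q →L[ℝ] E q)‖₊⁻¹ / 2 : ℝ≥0) : ℝ)) * e' with hr
  have hr0 : 0 < r := by
    have : ((‖(P.symm : E q →L[ℝ] E q)‖₊⁻¹ / 2 : ℝ≥0) : ℝ) =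
      (‖(P.symm : E q →L[ℝ] E q)‖₊ : ℝ)⁻¹ / 2 := by push_cast; ring
    rw [hr, this]
    have h3 : (0:ℝ) < (‖(P.symm : E q →L[ℝ] E q)‖₊ : ℝ)⁻¹ := inv_pos.2 hPs'
    exact mul_pos (by linarith) he'0
  have hcont : ContinuousAt (fun κ : ℝ => N κ y₀ y₀) κ₀ := by
    have h1 : ContinuousAt (fun p : ℝ × E q => N p.1 p.2 p.2) (κ₀, y₀) :=
      (Z_cont nf).continuousAt (isOpen_ne0.mem_nhds hy₀)
    exact h1.comp (f := fun κ : ℝ => (κ, y₀)) (by fun_prop)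
  have h2 := Metric.continuousAt_iff'.1 hcont r hr0
  have h3 : ∀ᶠ κ in 𝓝 κ₀, |κ - κ₀| < ε := by
    have := Metric.ball_mem_nhds κ₀ hε
    filter_upwards [this] with κ hκ
    rwa [mem_ball, Real.dist_eq] at hκ
  filter_upwards [h2, h3] with κ hκ1 hκ2
  have hsub : closedBall y₀ e' ⊆ ball y₀ ε :=
    closedBall_subset_ball ((min_le_right _ _).trans_lt (by linarith))
  have h4 := (h κ hκ2).surjOn_closedBall_of_nonlinearRightInverse P.toNonlinearRightInverse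
    he'0.le hsub
  have h5 : N κ₀ y₀ y₀ ∈ closedBall (N κ y₀ y₀) r := by
    rw [mem_closedBall, dist_comm]
    exact hκ1.le
  obtain ⟨y, hy, hy2⟩ := h4 h5
  refine ⟨y, ?_, (mem_closedBall.1 hy).trans (min_le_left _ _), hy2⟩
  intro hy0
  have := hsub hy
  rw [mem_ball, hy0, dist_zero_left] at this
  linarith

/-- uniform bounds -/
theorem bounds (hd : HD q G M) (nf : NF q M N) (κ₀ : ℝ) : ∃ c C : ℝ, 0 < c ∧ 0 < C ∧
    ∀ κ, |κ - κ₀| ≤ 1 → ∀ y : E q, y ≠ 0 → c * ‖y‖ ≤ ‖N κ y y‖ ∧ ‖N κ y y‖ ≤ C * ‖y‖ := by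
  have hne : (sphere (0 : E q) 1).Nonempty := NormedSpace.sphere_nonempty.2 zero_le_one
  have hcpt : IsCompact (closedBall κ₀ 1 ×ˢ sphere (0 : E q) 1) :=
    (isCompact_closedBall _ _).prod (isCompact_sphere _ _)
  have hnon : (closedBall κ₀ 1 ×ˢ sphere (0 : E q) 1).Nonempty :=
    (nonempty_closedBall.2 zero_le_one).prod hne
  have hcont : ContinuousOn (fun p : ℝ × E q => ‖N p.1 p.2 p.2‖)
      (closedBall κ₀ 1 ×ˢ sphere (0 : E q) 1) := by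
    refine ((Z_cont nf).mono ?_).norm
    rintro ⟨κ, y⟩ ⟨_, hy⟩ h0
    rw [mem_sphere_zero_iff_norm] at hy
    simp only at h0
    simp [h0] at hy
  obtain ⟨p, hp, hpmin⟩ := hcpt.exists_isMinOn hnon hcont
  obtain ⟨p', hp', hpmax⟩ := hcpt.exists_isMaxOn hnon hcont
  have hp0 : p.2 ≠ 0 := by
    intro h0
    have := mem_sphere_zero_iff_norm.1 hp.2
    simp [h0] at this
  have hp0' : p'.2 ≠ 0 := by
    intro h0
    have := mem_sphere_zero_iff_norm.1 hp'.2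
    simp [h0] at this
  refine ⟨‖N p.1 p.2 p.2‖, ‖N p'.1 p'.2 p'.2‖, norm_pos_iff.2 (Z_ne nf _ hp0),
    norm_pos_iff.2 (Z_ne nf _ hp0'), ?_⟩
  intro κ hκ y hy
  have hny : 0 < ‖y‖ := norm_pos_iff.2 hy
  have hu : ‖y‖⁻¹ • y ≠ 0 := smul_ne_zero (inv_ne_zero hny.ne') hy
  have hmem : (κ, ‖y‖⁻¹ • y) ∈ closedBall κ₀ 1 ×ˢ sphere (0 : E q) 1 := by
    refine ⟨?_, ?_⟩
    · rw [mem_closedBall, Real.dist_eq]
      exact hκ
    · rw [mem_sphere_zero_iff_norm, norm_smul, norm_inv, norm_norm, inv_mul_cancel₀ hny.ne']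
  have h1 : ‖N κ y y‖ = ‖y‖ * ‖N κ (‖y‖⁻¹ • y) (‖y‖⁻¹ • y)‖ := by
    rw [Z_hom nf κ hy (inv_pos.2 hny), norm_smul, norm_inv, norm_norm, ← mul_assoc,
      mul_inv_cancel₀ hny.ne', one_mul]
  have h2 : ‖N p.1 p.2 p.2‖ ≤ ‖N κ (‖y‖⁻¹ • y) (‖y‖⁻¹ • y)‖ :=
    isMinOn_iff.1 hpmin (κ, ‖y‖⁻¹ • y) hmem
  have h3 : ‖N κ (‖y‖⁻¹ • y) (‖y‖⁻¹ • y)‖ ≤ ‖N p'.1 p'.2 p'.2‖ :=
    isMaxOn_iff.1 hpmax (κ, ‖y‖⁻¹ • y) hmem
  rw [h1]
  constructor
  · rw [mul_comm]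
    exact mul_le_mul_of_nonneg_left h2 hny.le
  · rw [mul_comm]
    exact mul_le_mul_of_nonneg_right h3 hny.le

/-- the set of bad parameters -/
def Bad (N : ℝ → E q → (E q →L[ℝ] E q)) : Set ℝ :=
  {κ | ∃ y y', y ≠ 0 ∧ y' ≠ 0 ∧ y ≠ y' ∧ N κ y y = N κ y' y'}

theorem bad_open (hd : HD q G M) (nf : NF q M N) : IsOpen (Bad N) := by
  rw [isOpen_iff_mem_nhds]
  rintro κ₀ ⟨y1, y2, h1, h2, h12, h⟩
  have hdist : 0 < dist y1 y2 := dist_pos.2 h12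
  have e1 := loc_surj hd nf κ₀ h1 (e := dist y1 y2 / 3) (by positivity)
  have e2 := loc_surj hd nf κ₀ h2 (e := dist y1 y2 / 3) (by positivity)
  filter_upwards [e1, e2] with κ hκ1 hκ2
  obtain ⟨z1, a1, b1, c1⟩ := hκ1
  obtain ⟨z2, a2, b2, c2⟩ := hκ2
  refine ⟨z1, z2, a1, a2, ?_, by rw [c1, c2, h]⟩
  rintro rfl
  have := dist_triangle y1 z1 y2
  rw [dist_comm y1 z1] at this
  linarith

theorem bad_closed (hd : HD q G M) (nf : NF q M N) : IsClosed (Bad N) := by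
  rw [← isSeqClosed_iff_isClosed]
  intro k₀ κ hk₀ hlim₀
  -- restrict to parameters close to `κ`
  obtain ⟨n₀, hn₀⟩ := (Metric.tendsto_atTop.1 hlim₀) 1 one_pos
  set k : ℕ → ℝ := fun n => k₀ (n + n₀) with hkdef
  have hk : ∀ n, k n ∈ Bad N := fun n => hk₀ _
  have hlim : Tendsto k atTop (𝓝 κ) := hlim₀.comp (tendsto_add_atTop_nat n₀)
  have hk1 : ∀ n, |k n - κ| ≤ 1 := by
    intro n
    have := hn₀ (n + n₀) (by omega)
    rw [Real.dist_eq] at this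
    exact this.le
  obtain ⟨c, C, hc, hC, hb⟩ := bounds hd nf κ
  have key : ∀ n, ∃ p : E q × E q, p ∈ sphere (0 : E q) 1 ×ˢ
      (closedBall (0 : E q) (C / c) \ ball (0 : E q) (c / C)) ∧ p.1 ≠ p.2 ∧
      N (k n) p.1 p.1 = N (k n) p.2 p.2 := by
    intro n
    obtain ⟨y, y', hy, hy', hne, heq⟩ := hk n
    have hny : 0 < ‖y‖ := norm_pos_iff.2 hy
    set r : ℝ := ‖y‖⁻¹ with hr
    have hr0 : 0 < r := inv_pos.2 hny
    have h1 : ‖r • y‖ = 1 := by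
      rw [norm_smul, hr, norm_inv, norm_norm, inv_mul_cancel₀ hny.ne']
    have h2 : N (k n) (r • y) (r • y) = N (k n) (r • y') (r • y') := by
      rw [Z_hom nf _ hy hr0, Z_hom nf _ hy' hr0, heq]
    have h3 : r • y ≠ 0 := smul_ne_zero hr0.ne' hy
    have h4 : r • y' ≠ 0 := smul_ne_zero hr0.ne' hy'
    obtain ⟨b1, b2⟩ := hb (k n) (hk1 n) _ h3
    obtain ⟨b3, b4⟩ := hb (k n) (hk1 n) _ h4
    rw [h1, mul_one] at b1 b2
    rw [← h2] at b3 b4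
    refine ⟨(r • y, r • y'), ⟨?_, ?_, ?_⟩, ?_, h2⟩
    · rw [mem_sphere_zero_iff_norm]
      exact h1
    · rw [mem_closedBall_zero_iff, le_div_iff₀ hc]
      linarith
    · rw [mem_ball_zero_iff, not_lt, div_le_iff₀ hC]
      linarith
    · intro h5
      exact hne (smul_right_injective _ hr0.ne' h5)
  choose p hp hpne hpeq using key
  have hcpt : IsCompact (sphere (0 : E q) 1 ×ˢ
      (closedBall (0 : E q) (C / c) \ ball (0 : E q) (c / C))) :=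
    (isCompact_sphere _ _).prod ((isCompact_closedBall _ _).diff isOpen_ball)
  obtain ⟨⟨y, y'⟩, hmem, φ, hφ, hφlim⟩ := hcpt.tendsto_subseq hp
  have hy : y ≠ 0 := by
    rintro rfl
    have := mem_sphere_zero_iff_norm.1 hmem.1
    simp at this
  have hy' : y' ≠ 0 := by
    rintro rfl
    have := hmem.2.2
    rw [mem_ball_zero_iff, norm_zero, not_lt] at this
    have h2 : 0 < c / C := by positivity
    linarith
  have l1 : Tendsto (fun n => (p (φ n)).1) atTop (𝓝 y) :=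
    (continuous_fst.tendsto _).comp hφlim
  have l2 : Tendsto (fun n => (p (φ n)).2) atTop (𝓝 y') :=
    (continuous_snd.tendsto _).comp hφlim
  have lk : Tendsto (fun n => k (φ n)) atTop (𝓝 κ) := hlim.comp hφ.tendsto_atTop
  have c1 : ContinuousAt (fun p : ℝ × E q => N p.1 p.2 p.2) (κ, y) :=
    (Z_cont nf).continuousAt (isOpen_ne0.mem_nhds hy)
  have c2 : ContinuousAt (fun p : ℝ × E q => N p.1 p.2 p.2) (κ, y') :=
    (Z_cont nf).continuousAt (isOpen_ne0.mem_nhds hy')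
  have t1 : Tendsto (fun n => N (k (φ n)) (p (φ n)).1 (p (φ n)).1) atTop (𝓝 (N κ y y)) :=
    c1.tendsto.comp (lk.prodMk_nhds l1)
  have t2 : Tendsto (fun n => N (k (φ n)) (p (φ n)).2 (p (φ n)).2) atTop (𝓝 (N κ y' y')) :=
    c2.tendsto.comp (lk.prodMk_nhds l2)
  have heq : N κ y y = N κ y' y' := by
    refine tendsto_nhds_unique t1 ?_
    refine t2.congr fun n => (hpeq (φ n)).symm
  refine ⟨y, y', hy, hy', ?_, heq⟩
  rintro rfl
  obtain ⟨ε, hε, hinj⟩ := loc_inj hd nf κ hy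
  have f1 := (Metric.tendsto_atTop.1 l1) ε hε
  have f2 := (Metric.tendsto_atTop.1 l2) ε hε
  have f3 := (Metric.tendsto_atTop.1 lk) ε hε
  obtain ⟨n1, g1⟩ := f1
  obtain ⟨n2, g2⟩ := f2
  obtain ⟨n3, g3⟩ := f3
  set n := max n1 (max n2 n3) with hn
  have a1 := g1 n (le_max_left _ _)
  have a2 := g2 n ((le_max_left _ _).trans (le_max_right _ _))
  have a3 := g3 n ((le_max_right _ _).trans (le_max_right _ _))
  rw [Real.dist_eq] at a3
  exact hpne (φ n) (hinj _ a3 a1 a2 (hpeq (φ n)))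

theorem inj : S_INJ := by
  intro q G M N hd nf κ y y' hy hy' h
  by_contra hne
  have hclopen : IsClopen (Bad N) := ⟨bad_closed hd nf, bad_open hd nf⟩
  rcases isClopen_iff.1 hclopen with h0 | h0
  · have : κ ∈ Bad N := ⟨y, y', hy, hy', hne, h⟩
    rw [h0] at this
    exact this
  · have : (0 : ℝ) ∈ Bad N := by
      rw [h0]
      trivial
    obtain ⟨z, z', hz, hz', hzz, hh⟩ := this
    rw [nf.zero z hz, nf.zero z' hz'] at hh
    exact hzz hh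

end Pool.Agent.W369.LG
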